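import Mathlib
import Pool.Agent.Q72.OK.Stm
import Pool.Agent.Helper259.AbsHt

/-!
# Job A1: finiteness of the integral points, from the height inequality and Northcott's theorem
-/

set_option autoImplicit false

namespace Pool.Agent.Q128.OK

open MvPolynomial
open scoped NumberField LinearAlgebra.Projectivization
open Pool.Agent.Helper259.AbsHt Pool.Agent.Q72.OK

/-- the curve `t ↦ ∑ t ^ l j v j` -/
noncomputable def crv {R : Type} [CommRing R] {n r : ℕ} (v : Fin r → Fin (n + 1) → R)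
    (l : Fin r → ℕ) (a : Fin (n + 1)) : Polynomial R :=
  ∑ j, Polynomial.C (v j a) * Polynomial.X ^ l j

/-- the height inequality -/
def PH : Prop := ∀ (n q r : ℕ) (d : Fin (q + 1) → ℕ), 1 ≤ d 0 → ∀ Γ : Subgroup Qbarˣ, Γ.FG →
  ∃ E : ℕ, ∀ (F : Fin (q + 1) → MvPolynomial (Fin (n + 1)) Qbar) (V : Fin r → Fin (n + 1) → Qbar),
    (∀ i, (F i).IsHomogeneous (d i)) → ∃ Bd : ℝ, ∀ (u : Fin r → Qbarˣ) (w : Qbarˣ),
      (∀ j, u j ∈ Γ) → w ∈ Γ →
      (∀ i, i ≠ 0 → aeval (fun a => ∑ j, (u j : Qbar) * V j a) (F i) = 0) →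
      aeval (fun a => ∑ j, (u j : Qbar) * V j a) (F 0) = w →
      absLogHeight (fun a => ∑ j, (u j : Qbar) * V j a) ≤ Bd ∨
        ∃ l : Fin r → ℕ, (∀ j, l j ≤ E) ∧
          (∀ i, i ≠ 0 → aeval (crv (fun j a => (u j : Qbar) * V j a) l) (F i) = 0) ∧
          ∃ a a' : Fin (n + 1), crv (fun j a => (u j : Qbar) * V j a) l a *
              Polynomial.C ((crv (fun j a => (u j : Qbar) * V j a) l a').eval 1) ≠
            crv (fun j a => (u j : Qbar) * V j a) l a' *
              Polynomial.C ((crv (fun j a => (u j : Qbar) * V j a) l a).eval 1)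

/-- Northcott's theorem -/
def NC : Prop := ∀ (n : ℕ) (K : Type) [Field K] [NumberField K] (φ : K →+* Qbar) (B : ℝ),
  {p : Projectivization K (Fin (n + 1) → K) | ∃ (y : Fin (n + 1) → K) (hy : y ≠ 0),
      p = Projectivization.mk K y hy ∧ absLogHeight (fun a => φ (y a)) ≤ B}.Finite

/-- base change of a linear automorphism -/
noncomputable def bc {L C : Type} [Field L] [Field C] (θ : L →+* C) {n : ℕ}
    (f : (Fin n → L) ≃ₗ[L] (Fin n → L)) : (Fin n → C) ≃ₗ[C] (Fin n → C) :=
  LinearEquiv.ofLinear (Matrix.toLin' ((LinearMap.toMatrix' f.toLinearMap).map θ))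
    (Matrix.toLin' ((LinearMap.toMatrix' f.symm.toLinearMap).map θ))
    (by
      rw [← Matrix.toLin'_mul, ← Matrix.map_mul, ← LinearMap.toMatrix'_comp]
      rw [show f.toLinearMap ∘ₗ f.symm.toLinearMap = LinearMap.id from by
        ext x; simp]
      rw [LinearMap.toMatrix'_id, Matrix.map_one _ (map_zero θ) (map_one θ), Matrix.toLin'_one])
    (by
      rw [← Matrix.toLin'_mul, ← Matrix.map_mul, ← LinearMap.toMatrix'_comp]
      rw [show f.symm.toLinearMap ∘ₗ f.toLinearMap = LinearMap.id from by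
        ext x; simp]
      rw [LinearMap.toMatrix'_id, Matrix.map_one _ (map_zero θ) (map_one θ), Matrix.toLin'_one])

lemma bc_apply {L C : Type} [Field L] [Field C] (θ : L →+* C) {n : ℕ}
    (f : (Fin n → L) ≃ₗ[L] (Fin n → L)) (y : Fin n → C) (a : Fin n) :
    bc θ f y a = ∑ j, θ (f (Pi.single j 1) a) * y j := by
  unfold bc
  rw [LinearEquiv.ofLinear_apply, Matrix.toLin'_apply, Matrix.mulVec, dotProduct]
  refine Finset.sum_congr rfl fun j _ => ?_
  rw [Matrix.map_apply, LinearMap.toMatrix'_apply]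
  rfl

lemma expand {L : Type} [Field L] {n : ℕ} (f : (Fin n → L) ≃ₗ[L] (Fin n → L)) (x : Fin n → L)
    (a : Fin n) : x a = ∑ j, f x j * f.symm (Pi.single j 1) a := by
  classical
  have h1 : f x = ∑ j, (f x j) • (Pi.single j (1 : L) : Fin n → L) := by
    funext b
    rw [Finset.sum_apply]
    simp [Pi.single_apply]
  have h2 : x = ∑ j, (f x j) • f.symm (Pi.single j (1 : L)) := by
    conv_lhs => rw [← f.symm_apply_apply x, h1, map_sum]
    exact Finset.sum_congr rfl fun j _ => map_smul _ _ _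
  conv_lhs => rw [h2]
  rw [Finset.sum_apply]
  rfl

/-- the linear form `f_j` -/
noncomputable def linf {L : Type} [Field L] (τ : L →+* Qbar) {n : ℕ}
    (f : (Fin (n + 1) → L) ≃ₗ[L] (Fin (n + 1) → L)) (j : Fin (n + 1)) :
    MvPolynomial (Fin (n + 1)) Qbar :=
  ∑ a, C (τ (f (Pi.single a 1) j)) * X a

lemma linf_hom {L : Type} [Field L] (τ : L →+* Qbar) {n : ℕ}
    (f : (Fin (n + 1) → L) ≃ₗ[L] (Fin (n + 1) → L)) (j : Fin (n + 1)) :
    (linf τ f j).IsHomogeneous 1 := by
  refine IsHomogeneous.sum _ _ _ fun a _ => ?_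
  have := (isHomogeneous_C (Fin (n + 1)) (τ (f (Pi.single a 1) j))).mul (isHomogeneous_X Qbar a)
  simpa using this

lemma linf_aeval {L : Type} [Field L] (τ : L →+* Qbar) {n : ℕ}
    (f : (Fin (n + 1) → L) ≃ₗ[L] (Fin (n + 1) → L)) (j : Fin (n + 1)) (x : Fin (n + 1) → L) :
    aeval (fun a => τ (x a)) (linf τ f j) = τ (f x j) := by
  classical
  unfold linf
  rw [map_sum]
  have h1 : x = ∑ a, (x a) • (Pi.single a (1 : L) : Fin (n + 1) → L) := by
    funext b
    rw [Finset.sum_apply]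
    simp [Pi.single_apply]
  conv_rhs => rw [h1, map_sum, Finset.sum_apply, map_sum]
  refine Finset.sum_congr rfl fun a _ => ?_
  rw [map_mul, aeval_C, aeval_X, map_smul, Pi.smul_apply, smul_eq_mul, map_mul, mul_comm]
  rfl

theorem fin_of (hPH : PH) (hNC : NC) : S_A1 := by
  intro K _ _ ι κ _ n σ F G hF hG hMC L _ _ _ ℓ Γ hΓ
  classical
  -- the embeddings
  obtain ⟨τ⟩ : Nonempty (L →+* Qbar) := ⟨(IsAlgClosed.lift : L →ₐ[ℚ] Qbar).toRingHom⟩
  obtain ⟨ρ, hρ⟩ : ∃ ρ : Qbar →+* ℂ, ∀ a : K, ρ (τ (algebraMap K L a)) = σ a := by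
    let _ : Algebra K Qbar := (τ.comp (algebraMap K L)).toAlgebra
    let _ : Algebra K ℂ := σ.toAlgebra
    have : Algebra.IsAlgebraic ℚ Qbar := AlgebraicClosure.isAlgebraic ℚ
    have : Algebra.IsAlgebraic K Qbar := Algebra.IsAlgebraic.tower_top (K := ℚ) K
    let ρ' : Qbar →ₐ[K] ℂ := IsAlgClosed.lift
    exact ⟨ρ'.toRingHom, fun a => ρ'.commutes a⟩
  let φ : 𝓞 K →+* Qbar := (τ.comp (algebraMap K L)).comp (algebraMap (𝓞 K) K)
  -- the forms
  choose dd hdd using hF
  obtain ⟨q, ⟨e⟩⟩ : ∃ q, Nonempty (ι ≃ Fin q) := Finite.exists_equiv_fin ι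
  let d : Fin (q + 1) → ℕ := Fin.cons 1 (fun i => dd (e.symm i))
  let F' : Fin (n + 1) → Fin (q + 1) → MvPolynomial (Fin (n + 1)) Qbar := fun j0 =>
    Fin.cons (linf τ ℓ j0) (fun i => map φ (F (e.symm i)))
  have hF' : ∀ j0 i, (F' j0 i).IsHomogeneous (d i) := by
    intro j0 i
    refine Fin.cases ?_ (fun i => ?_) i
    · exact linf_hom τ ℓ j0
    · exact (hdd (e.symm i)).map φ
  let Γ' : Subgroup Qbarˣ := Γ.map (Units.map τ.toMonoidHom)
  have hΓ' : Γ'.FG := by
    rw [Subgroup.fg_iff_submonoid_fg] at hΓ ⊢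
    exact hΓ.map _
  have hmemΓ : ∀ γ ∈ Γ, Units.map τ.toMonoidHom γ ∈ Γ' := fun γ hγ => Subgroup.mem_map_of_mem _ hγ
  obtain ⟨E, hE⟩ := hPH n q (n + 1) d (le_of_eq rfl) Γ' hΓ'
  let V : Finset (Fin (n + 1)) → Fin (n + 1) → Fin (n + 1) → Qbar := fun J j a =>
    if j ∈ J then τ (ℓ.symm (Pi.single j 1) a) else 0
  choose Bd hBd using fun p : Finset (Fin (n + 1)) × Fin (n + 1) => hE (F' p.2) (V p.1) (hF' p.2)
  let B : ℝ := ∑ p : Finset (Fin (n + 1)) × Fin (n + 1), |Bd p|
  have hBle : ∀ p, Bd p ≤ B := fun p => (le_abs_self _).trans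
    (Finset.single_le_sum (f := fun p => |Bd p|) (fun p _ => abs_nonneg _) (Finset.mem_univ p))
  refine (hNC n L τ B).subset ?_
  rintro P ⟨x, hx, rfl, hxF, ⟨l0, hxG⟩, hxΓ⟩
  refine ⟨x, hx, rfl, ?_⟩
  -- the support
  set J : Finset (Fin (n + 1)) := Finset.univ.filter fun j => ℓ x j ≠ 0 with hJ
  have hJmem : ∀ j, j ∈ J ↔ ℓ x j ≠ 0 := fun j => by simp [hJ]
  obtain ⟨j0, hj0⟩ : ∃ j, j ∈ J := by
    by_contra h0
    push Not at h0
    apply hx
    have h1 : ℓ x = 0 := by
      funext j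
      have := h0 j
      rw [hJmem, not_not] at this
      exact this
    exact (LinearEquiv.map_eq_zero_iff ℓ).1 h1
  have hγ : ∀ j, ∃ γ : Lˣ, γ ∈ Γ ∧ (j ∈ J → ℓ x j = (γ : Lˣ)) := by
    intro j
    by_cases hj : j ∈ J
    · rcases hxΓ j with h1 | ⟨γ, hγ, h1⟩
      · exact absurd h1 ((hJmem j).1 hj)
      · exact ⟨γ, hγ, fun _ => h1⟩
    · exact ⟨1, Γ.one_mem, fun h => absurd h hj⟩
  choose γ hγΓ hγx using hγ
  let u : Fin (n + 1) → Qbarˣ := fun j => Units.map τ.toMonoidHom (γ j)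
  have huv : ∀ j, ((u j : Qbarˣ) : Qbar) = τ (γ j) := fun j => rfl
  have hpt : ∀ a, ∑ j, (u j : Qbar) * V J j a = τ (x a) := by
    intro a
    rw [expand ℓ x a, map_sum]
    refine Finset.sum_congr rfl fun j _ => ?_
    rw [map_mul, huv]
    simp only [V]
    split_ifs with hj
    · rw [hγx j hj]
    · have : ℓ x j = 0 := by
        by_contra h0
        exact hj ((hJmem j).2 h0)
      rw [this, map_zero, mul_zero, zero_mul]
  have hev : ∀ (Q : MvPolynomial (Fin (n + 1)) (𝓞 K)), aeval (fun a => τ (x a)) (map φ Q) =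
      τ (eval₂ ((algebraMap K L).comp (algebraMap (𝓞 K) K)) x Q) := by
    intro Q
    rw [aeval_def, Algebra.algebraMap_self, eval₂_map, MvPolynomial.hom_eval₂]
    rfl
  rcases hBd (J, j0) u (u j0) (fun j => hmemΓ _ (hγΓ j)) (hmemΓ _ (hγΓ j0)) (by
    intro i hi
    obtain ⟨i, rfl⟩ := Fin.exists_succ_eq.2 hi
    simp only [hpt]
    change aeval (fun a => τ (x a)) (map φ (F (e.symm i))) = 0
    rw [hev, hxF, map_zero]) (by
    simp only [hpt]
    change aeval (fun a => τ (x a)) (linf τ ℓ j0) = _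
    rw [linf_aeval, huv, hγx j0 hj0]) with hle | ⟨l, hl, hlF, a, a', haa⟩
  · simp only [hpt] at hle
    exact hle.trans (hBle _)
  · exfalso
    obtain ⟨p, hp⟩ : ∃ p : Fin (n + 1) → Polynomial Qbar,
      p = crv (fun j a => (u j : Qbar) * V J j a) l := ⟨_, rfl⟩
    simp only at hlF haa
    rw [← hp] at hlF haa
    -- the curve over `ℂ`
    let y : Fin (n + 1) → ℂ := fun j => if j ∈ J then ρ (u j) else 0
    have hS : ∀ (t : ℂ) (a : Fin (n + 1)), bc (ρ.comp τ) ℓ.symm (fun j => y j * t ^ l j) a =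
        (p a).eval₂ ρ t := by
      intro t a
      rw [bc_apply, hp]
      unfold crv
      rw [Polynomial.eval₂_finsetSum]
      refine Finset.sum_congr rfl fun j _ => ?_
      rw [Polynomial.eval₂_mul, Polynomial.eval₂_C, Polynomial.eval₂_pow, Polynomial.eval₂_X, map_mul]
      simp only [y, V]
      split_ifs with hj
      · rw [RingHom.comp_apply]
        ring
      · simp
    have hcomp : ∀ (Q : MvPolynomial (Fin (n + 1)) (𝓞 K)) (t : ℂ),
        eval₂ (σ.comp (algebraMap (𝓞 K) K)) (bc (ρ.comp τ) ℓ.symm (fun j => y j * t ^ l j)) Q =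
          (aeval p (map φ Q)).eval₂ ρ t := by
      intro Q t
      have h1 : (aeval p (map φ Q) : Polynomial Qbar).eval₂ ρ t =
          Polynomial.eval₂RingHom ρ t (aeval p (map φ Q)) := rfl
      rw [h1, aeval_def, MvPolynomial.hom_eval₂, eval₂_map]
      congr 1
      · refine RingHom.ext fun z => ?_
        change σ (algebraMap (𝓞 K) K z) = Polynomial.eval₂ ρ t (algebraMap Qbar (Polynomial Qbar)
          (τ (algebraMap K L (algebraMap (𝓞 K) K z))))
        rw [Polynomial.algebraMap_apply, Algebra.algebraMap_self, RingHom.id_apply,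
          Polynomial.eval₂_C, hρ]
      · funext a
        exact hS t a
    have hcur : MonCurve σ F E (bc (ρ.comp τ) ℓ.symm) y l := by
      refine ⟨hl, ?_, ?_⟩
      · by_contra h0
        push Not at h0
        have hyne : ∀ j ∈ J, y j ≠ 0 := by
          intro j hj
          simp only [y, if_pos hj]
          exact (map_ne_zero ρ).2 (u j).ne_zero
        have hpa : ∀ a, p a = Polynomial.C (τ (x a)) * Polynomial.X ^ l j0 := by
          intro a
          rw [← hpt a, hp]
          unfold crv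
          rw [map_sum, Finset.sum_mul]
          refine Finset.sum_congr rfl fun j _ => ?_
          by_cases hj : j ∈ J
          · rw [h0 j j0 (hyne j hj) (hyne j0 hj0)]
          · simp only [V, if_neg hj, mul_zero, Polynomial.C_0, zero_mul]
        apply haa
        rw [hpa, hpa]
        simp only [Polynomial.eval_mul, Polynomial.eval_C, Polynomial.eval_pow, Polynomial.eval_X,
          one_pow, mul_one]
        ring
      · intro t _ i
        rw [hcomp]
        have h1 := hlF (Fin.succ (e i)) (Fin.succ_ne_zero _)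
        have h2 : F' j0 (Fin.succ (e i)) = map φ (F i) := by
          change map φ (F (e.symm (e i))) = _
          rw [Equiv.symm_apply_apply]
        rw [h2] at h1
        rw [h1, Polynomial.eval₂_zero]
    have h1 := hMC E _ _ _ hcur 1 one_ne_zero l0
    rw [hcomp] at h1
    apply hxG
    have h2 : (aeval p (map φ (G l0)) : Polynomial Qbar).eval₂ ρ 1 =
        ρ (aeval (fun a => τ (x a)) (map φ (G l0))) := by
      have h3 : (aeval p (map φ (G l0)) : Polynomial Qbar).eval₂ ρ 1 =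
          ρ ((aeval p (map φ (G l0)) : Polynomial Qbar).eval 1) := by
        rw [Polynomial.eval₂_at_one]
      rw [h3]
      congr 1
      have h4 : (aeval p (map φ (G l0)) : Polynomial Qbar).eval 1 =
          Polynomial.evalRingHom 1 (aeval p (map φ (G l0))) := rfl
      rw [h4, aeval_def, MvPolynomial.hom_eval₂, aeval_def]
      congr 1
      · refine RingHom.ext fun z => ?_
        change Polynomial.eval 1 (algebraMap Qbar (Polynomial Qbar) z) = z
        rw [Polynomial.algebraMap_apply, Algebra.algebraMap_self, RingHom.id_apply,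
          Polynomial.eval_C]
      · funext a
        change Polynomial.eval 1 (p a) = τ (x a)
        rw [← hpt a, hp]
        unfold crv
        rw [Polynomial.eval_finsetSum]
        refine Finset.sum_congr rfl fun j _ => ?_
        simp
    rw [h2, hev] at h1
    exact (map_eq_zero τ).1 ((map_eq_zero ρ).1 h1)

end Pool.Agent.Q128.OK
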