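import Mathlib
import Pool.Agent.Q128.OK.Core
import Pool.Agent.Q204.UF.Pair
import Pool.Agent.Y215.SK.FinB

/-!
# Job A1: the integral points are finite if there are no monomial curves
-/

set_option autoImplicit false

namespace Pool.Agent.Q128.OK

open MvPolynomial
open scoped NumberField LinearAlgebra.Projectivization
open Pool.Agent.Helper259.AbsHt Pool.Agent.Q72.OK

theorem nc : NC := fun n K _ _ φ B => Pool.Agent.Y215.SK.northcott_proj (n := n) K φ B

theorem ph : PH := by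
  intro n q r d hd0 Γ hΓ
  classical
  obtain ⟨D, hD1, hdD⟩ : ∃ D : ℕ, 1 ≤ D ∧ ∀ i, d i ≤ D := ⟨∑ i, d i + 1, by omega, fun i =>
    (Finset.single_le_sum (f := d) (fun _ _ => Nat.zero_le _) (Finset.mem_univ i)).trans
      (Nat.le_succ _)⟩
  obtain ⟨C, hC0, hC⟩ := Pool.Agent.Q204.UF.pair_heights (n := n) (r := r) d D hD1 hd0 hdD Γ hΓ
  refine ⟨Pool.Agent.Q204.UF.expB D (r + 1), fun F V hF =>
    ⟨C * (1 + Pool.Agent.Y215.AF.hA (Pool.Agent.Q51.UF.cof d F) +
      Pool.Agent.Y215.AF.hA ![(1 : Qbar)] + Pool.Agent.Y215.AF.hAV V), fun u w hu hw hx hG => ?_⟩⟩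
  by_contra hcon
  push Not at hcon
  obtain ⟨h1, h2⟩ := hcon
  refine absurd (hC F u w 1 V hF (fun j => ⟨1, one_pos, by rw [pow_one]; exact hu j⟩)
    ⟨1, one_pos, by rw [pow_one]; exact hw⟩ one_ne_zero hx (by rw [hG, mul_one])
    fun l hl hL => ?_) (not_le.2 h1)
  obtain ⟨h3, -, a, a', h4⟩ := hL
  exact h4 (h2 l hl h3 a a')

/-- **Job A1.** -/
theorem job_a1 : S_A1 := fin_of ph nc

end Pool.Agent.Q128.OK
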