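import Mathlib
import Pool.Agent.Q72.OK.Stm
import Pool.Agent.TH182.J242

/-!
# Job W: an entire function with given orders at all points
-/

set_option autoImplicit false

open Filter Topology Metric

namespace Pool.Agent.Q128.OK

open Pool.Agent.TH182.J242

/-- elementary factors without zeros -/
lemma exists_factor' (m : ℕ) {ε : ℝ} (hε : 0 < ε) :
    ∃ h : ℂ → ℂ, Differentiable ℂ h ∧ (∀ w, h w ≠ 0) ∧
      ∀ w : ℂ, ‖w‖ ≤ 1 / 2 → ‖(1 - w) ^ m * h w - 1‖ ≤ ε := by
  obtain ⟨n, hn⟩ : ∃ n : ℕ, (m : ℝ) * (1 / 2) ^ n < min 1 (ε / 2) := by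
    have h1 : Tendsto (fun n : ℕ => (m : ℝ) * (1 / 2) ^ n) atTop (𝓝 (m * 0)) :=
      (tendsto_pow_atTop_nhds_zero_of_lt_one (by norm_num) (by norm_num)).const_mul _
    rw [mul_zero] at h1
    exact (h1.eventually_lt_const (show (0 : ℝ) < min 1 (ε / 2) by positivity)).exists
  refine ⟨fun w => Complex.exp (-(m : ℂ) * Complex.logTaylor (n + 1) (-w)), ?_, ?_, ?_⟩
  · have h1 : Differentiable ℂ (Complex.logTaylor (n + 1)) := by
      intro z
      have h2 := Complex.hasDerivAt_logTaylor n z
      exact h2.differentiableAt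
    fun_prop
  · intro w
    exact Complex.exp_ne_zero _
  · intro w hw
    have hw1 : ‖-w‖ < 1 := by rw [norm_neg]; linarith
    have h1 := Complex.norm_log_sub_logTaylor_le n hw1
    have hne : (1 : ℂ) - w ≠ 0 := by
      intro h
      have : w = 1 := by linear_combination -h
      rw [this] at hw
      norm_num at hw
    have h2 : (1 - w) ^ m * Complex.exp (-(m : ℂ) * Complex.logTaylor (n + 1) (-w))
        = Complex.exp ((m : ℂ) * (Complex.log (1 + -w) - Complex.logTaylor (n + 1) (-w))) := by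
      have h0 : (m : ℂ) * (Complex.log (1 + -w) - Complex.logTaylor (n + 1) (-w))
          = (m : ℂ) * Complex.log (1 + -w) + -(m : ℂ) * Complex.logTaylor (n + 1) (-w) := by ring
      rw [h0, Complex.exp_add, ← sub_eq_add_neg]
      congr 1
      rw [Complex.exp_nat_mul, Complex.exp_log hne]
    rw [h2]
    set u := (m : ℂ) * (Complex.log (1 + -w) - Complex.logTaylor (n + 1) (-w)) with hu
    have h3 : ‖u‖ ≤ m * (1 / 2) ^ n := by
      rw [hu, norm_mul, Complex.norm_natCast]
      gcongr
      refine h1.trans ?_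
      rw [norm_neg] at *
      have h4 : ‖w‖ ^ (n + 1) ≤ (1 / 2) ^ (n + 1) := by gcongr
      have h5 : (1 - ‖w‖)⁻¹ ≤ 2 := by
        rw [inv_le_comm₀ (by linarith) (by norm_num)]
        linarith
      calc ‖w‖ ^ (n + 1) * (1 - ‖w‖)⁻¹ / (n + 1) ≤ ‖w‖ ^ (n + 1) * (1 - ‖w‖)⁻¹ / 1 := by
            have : 0 ≤ (1 - ‖w‖)⁻¹ := inv_nonneg.mpr (by linarith)
            gcongr
            linarith [(Nat.cast_nonneg n : (0 : ℝ) ≤ n)]
        _ ≤ (1 / 2) ^ (n + 1) * 2 / 1 := by gcongr
        _ = (1 / 2) ^ n := by rw [pow_succ]; ring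
    have h6 : ‖u‖ ≤ 1 := h3.trans (hn.le.trans (min_le_left _ _))
    calc ‖Complex.exp u - 1‖ ≤ 2 * ‖u‖ := Complex.norm_exp_sub_one_le h6
      _ ≤ 2 * (ε / 2) := by
          have := h3.trans (hn.le.trans (min_le_right _ _))
          linarith
      _ = ε := by ring

/-- the product has no zero at a point where no factor vanishes -/
lemma fam_ne_zero {ι : Type*} {g : ι → ℂ → ℂ} (hg : Fam g) {z : ℂ} (hz : ∀ i, g i z ≠ 0) :
    ∏' i, g i z ≠ 0 := by
  obtain ⟨ε, hε, hb⟩ := hg.bd
  have e1 : ∏' i, g i z = ∏' i, (1 + (g i z - 1)) := tprod_congr fun i => by ring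
  rw [e1]
  refine tprod_one_add_ne_zero_of_summable (fun i => ?_) ?_
  · have := hz i
    intro h
    apply this
    linear_combination h
  · refine Summable.of_norm_bounded_eventually hε ?_
    filter_upwards [hb ‖z‖] with i hi
    rw [norm_norm]
    exact hi z le_rfl

/-- JOB W -/
theorem job_w : Pool.Agent.Q72.OK.S_W := by
  classical
  intro D hfin
  set P : Set ℂ := {z | D z ≠ 0} with hP
  have hcount : P.Countable := by
    have h1 : P ⊆ ⋃ n : ℕ, P ∩ closedBall 0 n := by
      intro a ha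
      obtain ⟨n, hn⟩ := exists_nat_ge ‖a‖
      exact Set.mem_iUnion.mpr ⟨n, ha, by simpa using hn⟩
    exact (Set.countable_iUnion fun n : ℕ => (hfin n).countable).mono h1
  obtain ⟨c, hc⟩ : ∃ c : ℂ, c ∉ P := by
    by_contra hcon
    push Not at hcon
    have : P = Set.univ := Set.eq_univ_of_forall hcon
    rw [this] at hcount
    exact not_countable_complex hcount
  have : Countable P := hcount.to_subtype
  have : Encodable P := Encodable.ofCountable P
  obtain ⟨ε, hε0, _, hεs, _⟩ := posSumOfEncodable (show (0 : ℝ) < 1 by norm_num) P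
  have hh : ∀ a : P, ∃ h : ℂ → ℂ, Differentiable ℂ h ∧ (∀ w, h w ≠ 0) ∧
      ∀ w : ℂ, ‖w‖ ≤ 1 / 2 → ‖(1 - w) ^ (D a) * h w - 1‖ ≤ ε a :=
    fun a => exists_factor' (D a) (hε0 a)
  choose h hhd hh0 hhb using hh
  set g : P → ℂ → ℂ := fun a z =>
    (1 - (z - c) / ((a : ℂ) - c)) ^ (D a) * h a ((z - c) / ((a : ℂ) - c)) with hg
  have hac : ∀ a : P, (a : ℂ) - c ≠ 0 := fun a h0 => hc (by
    have : (a : ℂ) = c := by linear_combination h0
    rw [← this]; exact a.2)
  have hFam : Fam g := by
    refine ⟨?_, ε, hεs.summable, ?_⟩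
    · intro a
      have := hhd a
      simp only [hg]
      fun_prop
    · intro R
      have hfinR : {a : P | ‖(a : ℂ) - c‖ < 2 * (R + ‖c‖)}.Finite := by
        refine Set.Finite.of_finite_image (f := Subtype.val) ?_ Subtype.val_injective.injOn
        refine (hfin (2 * (R + ‖c‖) + ‖c‖)).subset ?_
        rintro _ ⟨a, ha, rfl⟩
        refine ⟨a.2, ?_⟩
        rw [mem_closedBall, dist_zero_right]
        have : ‖(a : ℂ)‖ ≤ ‖(a : ℂ) - c‖ + ‖c‖ := by
          simpa using norm_add_le ((a : ℂ) - c) c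
        have ha' : ‖(a : ℂ) - c‖ < 2 * (R + ‖c‖) := ha
        linarith
      filter_upwards [hfinR.eventually_cofinite_notMem] with a ha z hz
      have ha' : 2 * (R + ‖c‖) ≤ ‖(a : ℂ) - c‖ := by simpa using ha
      refine hhb a _ ?_
      rw [norm_div, div_le_iff₀ (norm_pos_iff.mpr (hac a))]
      have : ‖z - c‖ ≤ R + ‖c‖ := (norm_sub_le _ _).trans (by linarith)
      linarith
  have hgz : ∀ (a : P) (z : ℂ), z ≠ a → g a z ≠ 0 := by
    intro a z hza
    simp only [hg]
    refine mul_ne_zero (pow_ne_zero _ ?_) (hh0 a _)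
    intro h0
    apply hza
    have h1 := hac a
    have h2 : (z - c) / ((a : ℂ) - c) = 1 := by linear_combination -h0
    rw [div_eq_one_iff_eq h1] at h2
    linear_combination h2
  refine ⟨fun z => ∏' a, g a z, hFam.differentiable, fun z => ?_⟩
  by_cases hz : z ∈ P
  · set a : P := ⟨z, hz⟩ with ha
    have h1 : (fun z => ∏' a, g a z) = fun w =>
        (w - z) ^ (D z) • (((-1 / ((a : ℂ) - c)) ^ (D z)) *
          h a ((w - c) / ((a : ℂ) - c)) * ∏' i, Function.update g a (fun _ => 1) i w) := by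
      funext w
      rw [hFam.split a w]
      have h2 : g a w = (w - (a : ℂ)) ^ (D a) * ((-1 / ((a : ℂ) - c)) ^ (D a) *
          h a ((w - c) / ((a : ℂ) - c))) := by
        simp only [hg]
        rw [← mul_assoc, ← mul_pow]
        congr 2
        have := hac a
        field_simp
        ring
      rw [h2, smul_eq_mul]
      ring
    rw [h1]
    have h3 : Differentiable ℂ fun w : ℂ => h a ((w - c) / ((a : ℂ) - c)) := by
      have := hhd a
      fun_prop
    have h4 := (hFam.update a).differentiable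
    have h5 : Differentiable ℂ fun w : ℂ => ((-1 / ((a : ℂ) - c)) ^ (D z)) *
          h a ((w - c) / ((a : ℂ) - c)) * ∏' i, Function.update g a (fun _ => 1) i w :=
      ((differentiable_const _).mul h3).mul h4
    have h6 : AnalyticAt ℂ (fun w => (w - z) ^ (D z) • (((-1 / ((a : ℂ) - c)) ^ (D z)) *
          h a ((w - c) / ((a : ℂ) - c)) * ∏' i, Function.update g a (fun _ => 1) i w)) z := by
      have := h5.analyticAt z
      fun_prop
    rw [h6.analyticOrderAt_eq_natCast]
    refine ⟨_, h5.analyticAt z, ?_, Filter.Eventually.of_forall fun w => rfl⟩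
    refine mul_ne_zero (mul_ne_zero (pow_ne_zero _ (div_ne_zero (by norm_num) (hac a))) (hh0 a _)) ?_
    refine fam_ne_zero (hFam.update a) fun i => ?_
    by_cases hi : i = a
    · subst hi
      rw [Function.update_self]
      exact one_ne_zero
    · rw [Function.update_of_ne hi]
      refine hgz i z fun h0 => hi ?_
      exact Subtype.ext h0.symm
  · have hD : D z = 0 := by
      by_contra h0
      exact hz h0
    rw [hD, Nat.cast_zero, (hFam.differentiable.analyticAt z).analyticOrderAt_eq_zero]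
    refine fam_ne_zero hFam fun i => hgz i z ?_
    rintro rfl
    exact hz i.2

end Pool.Agent.Q128.OK
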